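import Pool.Agent.TBP.StmtsA

/-!
# Squad TBP (MP_ba39b0_nt), row BET: the final form
-/

set_option autoImplicit false

namespace Pool.Agent.TBP.H45

open Pool.Agent.TBP

/-- `A x ^ γ ≤ x + A ^ (1 / (1 - γ))` -/
theorem pow_bd (A γ x : ℝ) (hA : 0 < A) (hγ : 0 < γ) (hγ1 : γ < 1) (hx : 0 < x) :
    A * x ^ γ ≤ x + A ^ (1 / (1 - γ)) := by
  have h1 : 0 < 1 - γ := by linarith
  obtain ⟨c, hc⟩ : ∃ c : ℝ, c = A ^ (1 / (1 - γ)) := ⟨_, rfl⟩
  have hc0 : 0 < c := by rw [hc]; exact Real.rpow_pos_of_pos hA _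
  have hcA : c ^ (1 - γ) = A := by
    rw [hc, ← Real.rpow_mul hA.le, one_div, inv_mul_cancel₀ h1.ne', Real.rpow_one]
  rw [← hc]
  rcases le_total c x with h | h
  · have h2 : A ≤ x ^ (1 - γ) := by
      rw [← hcA]
      exact Real.rpow_le_rpow hc0.le h h1.le
    have h3 : x ^ (1 - γ) * x ^ γ = x := by
      rw [← Real.rpow_add hx, sub_add_cancel, Real.rpow_one]
    have h4 : A * x ^ γ ≤ x ^ (1 - γ) * x ^ γ :=
      mul_le_mul_of_nonneg_right h2 (Real.rpow_nonneg hx.le _)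
    linarith
  · have h2 : x ^ γ ≤ c ^ γ := Real.rpow_le_rpow hx.le h hγ.le
    have h3 : c ^ (1 - γ) * c ^ γ = c := by
      rw [← Real.rpow_add hc0, sub_add_cancel, Real.rpow_one]
    have h4 : A * x ^ γ ≤ A * c ^ γ := mul_le_mul_of_nonneg_left h2 hA.le
    rw [hcA] at h3
    linarith

/-- Row BET. -/
theorem bet (fin : FinStmt) : BetStmt := by
  intro β hβ hβ2
  have he : 0 < Real.exp 1 * Real.log 2 :=
    mul_pos (Real.exp_pos 1) (Real.log_pos (by norm_num))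
  obtain ⟨B, hB⟩ : ∃ B : ℝ, B = (Real.exp 1 * Real.log 2 + 1 / β) / 2 := ⟨_, rfl⟩
  have h1 : Real.exp 1 * Real.log 2 < 1 / β := by
    rw [lt_div_iff₀ hβ]
    rw [lt_div_iff₀ he] at hβ2
    linarith
  have hB1 : Real.exp 1 * Real.log 2 < B := by rw [hB]; linarith
  have hB2 : B < 1 / β := by rw [hB]; linarith
  have hB0 : 0 < B := he.trans hB1
  have hγ : 0 < B * β := mul_pos hB0 hβ
  have hγ1 : B * β < 1 := by rwa [lt_div_iff₀ hβ] at hB2
  obtain ⟨C, hC, hfin⟩ := fin B hB1 (-1) (Or.inr rfl)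
  have hA : 0 < C ^ β := Real.rpow_pos_of_pos hC _
  refine ⟨(C ^ β) ^ (1 / (1 - B * β)), Real.rpow_pos_of_pos hA _, ?_⟩
  refine Set.infinite_of_not_bddAbove ?_
  rintro ⟨b, hb⟩
  obtain ⟨n, hn, hk⟩ := hfin (b + 1)
  have hmem : n ∈ {n : ℕ | ∀ m : ℕ, 1 ≤ m → m < n →
      (m : ℝ) + (m.divisors.card : ℝ) ^ β ≤ n + (C ^ β) ^ (1 / (1 - B * β))} := by
    intro m hm hmn
    obtain ⟨k, rfl⟩ : ∃ k, n = m + k := ⟨n - m, by omega⟩
    have hk1 : 1 ≤ k := by omega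
    have h2 := hk k hk1
    have h3 : (((m + k : ℕ) : ℤ) + (-1) * (k : ℤ)).natAbs = m := by
      push_cast
      have : (m : ℤ) + k + -1 * k = m := by ring
      rw [this, Int.natAbs_natCast]
    rw [h3] at h2
    have hkr : (0 : ℝ) < k := by exact_mod_cast hk1
    have h4 : (m.divisors.card : ℝ) ^ β ≤ (C * (k : ℝ) ^ B) ^ β :=
      Real.rpow_le_rpow (by positivity) h2 hβ.le
    have h5 : (C * (k : ℝ) ^ B) ^ β = C ^ β * (k : ℝ) ^ (B * β) := by
      rw [Real.mul_rpow hC.le (Real.rpow_nonneg hkr.le _), ← Real.rpow_mul hkr.le]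
    have h6 := pow_bd (C ^ β) (B * β) k hA hγ hγ1 hkr
    rw [h5] at h4
    push_cast
    linarith
  have := hb hmem
  omega

end Pool.Agent.TBP.H45
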